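import Pool.Agent.P8H15.FG.Stm

/-!
# Project FG (helper15), packages EUL and EXP
-/

set_option autoImplicit false

namespace Pool.Agent.P8H52.FG

open Finset Filter Topology
open Pool.Agent.P8H15.FG
open Pool.Agent.H560R3.GB (sing C₂)

/-- the factors of the twin prime constant -/
noncomputable def fc (p : ℕ) : ℝ := 1 - 1 / ((p : ℝ) - 1) ^ 2

lemma fc_pos {p : ℕ} (hp : 3 ≤ p) : 0 < fc p := by
  have h3 : (3 : ℝ) ≤ p := by exact_mod_cast hp
  have h4 : (1 : ℝ) < ((p : ℝ) - 1) ^ 2 := by nlinarith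
  have h5 : 1 / ((p : ℝ) - 1) ^ 2 < 1 := by
    rw [div_lt_one (by linarith)]; exact h4
  unfold fc
  linarith

lemma fc_le (p : ℕ) : fc p ≤ 1 := by
  unfold fc
  have h6 : 0 ≤ 1 / ((p : ℝ) - 1) ^ 2 := by positivity
  linarith

/-- the partial products of the twin prime constant -/
noncomputable def cp (z : ℕ) : ℝ := ∏ p ∈ (Icc 3 z).filter Nat.Prime, fc p

lemma cp_pos (z : ℕ) : 0 < cp z := prod_pos fun p hp => by
  rw [mem_filter, mem_Icc] at hp
  exact fc_pos hp.1.1

lemma cp_anti : Antitone cp := by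
  intro a b hab
  unfold cp
  have hsub : (Icc 3 a).filter Nat.Prime ⊆ (Icc 3 b).filter Nat.Prime := by
    intro p hp
    rw [mem_filter, mem_Icc] at hp ⊢
    exact ⟨⟨hp.1.1, hp.1.2.trans hab⟩, hp.2⟩
  rw [← prod_sdiff hsub]
  have h1 : ∏ p ∈ (Icc 3 b).filter Nat.Prime \ (Icc 3 a).filter Nat.Prime, fc p ≤ 1 := by
    refine prod_le_one (fun p hp => ?_) (fun p hp => ?_)
    · rw [Finset.mem_sdiff, mem_filter, mem_Icc] at hp
      exact (fc_pos hp.1.1.1).le
    · exact fc_le p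
  have h2 : 0 ≤ ∏ p ∈ (Icc 3 a).filter Nat.Prime, fc p := (cp_pos a).le
  nlinarith

lemma all_prod (n : ℕ) : ∏ p ∈ Icc 3 (n + 2), fc p = ((n : ℝ) + 2) / (2 * (n + 1)) := by
  induction n with
  | zero => simp
  | succ n ih =>
    have h1 : Icc 3 (n + 1 + 2) = insert (n + 3) (Icc 3 (n + 2)) := by
      ext x; simp only [mem_Icc, mem_insert]; omega
    rw [h1, prod_insert (by simp), ih]
    unfold fc
    have h2 : (0 : ℝ) ≤ n := Nat.cast_nonneg n
    push_cast
    have h3 : ((n : ℝ) + 3 - 1) ≠ 0 := by linarith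
    have h4 : ((n : ℝ) + 3 - 1) = n + 2 := by ring
    rw [h4]
    have h5 : ((n : ℝ) + 2) ≠ 0 := by linarith
    have h6 : ((n : ℝ) + 1) ≠ 0 := by linarith
    have h7 : ((n : ℝ) + 1 + 1) ≠ 0 := by linarith
    field_simp
    ring

lemma cp_ge (z : ℕ) : 1 / 2 ≤ cp z := by
  rcases Nat.lt_or_ge z 2 with hz | hz
  · have : cp z = 1 := by
      unfold cp
      rw [Finset.Icc_eq_empty (by omega)]
      simp
    rw [this]; norm_num
  · obtain ⟨n, rfl⟩ : ∃ n, z = n + 2 := ⟨z - 2, by omega⟩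
    have h1 := all_prod n
    have h2 := Finset.prod_filter_mul_prod_filter_not (Icc 3 (n + 2)) Nat.Prime fc
    have h3 : ∏ p ∈ (Icc 3 (n + 2)).filter (fun p => ¬ p.Prime), fc p ≤ 1 := by
      refine prod_le_one (fun p hp => ?_) (fun p hp => fc_le p)
      rw [mem_filter, mem_Icc] at hp
      exact (fc_pos hp.1.1).le
    have h4 := cp_pos (n + 2)
    have h5 : cp (n + 2) * ∏ p ∈ (Icc 3 (n + 2)).filter (fun p => ¬ p.Prime), fc p =
        ((n : ℝ) + 2) / (2 * (n + 1)) := by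
      rw [← h1, ← h2]; rfl
    have h6 : 1 / 2 ≤ ((n : ℝ) + 2) / (2 * (n + 1)) := by
      have h7 : (0 : ℝ) ≤ n := Nat.cast_nonneg n
      rw [div_le_div_iff₀ (by norm_num) (by linarith)]
      linarith
    nlinarith

lemma C2_eq : C₂ = ⨅ z, cp z := rfl

lemma C2_half : 1 / 2 ≤ C₂ := by
  rw [C2_eq]
  exact le_ciInf cp_ge

lemma C2_pos : 0 < C₂ := lt_of_lt_of_le (by norm_num) C2_half

lemma cp_tendsto : Tendsto cp atTop (𝓝 C₂) := by
  rw [C2_eq]
  exact tendsto_atTop_ciInf cp_anti ⟨0, by rintro _ ⟨z, rfl⟩; exact (cp_pos z).le⟩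

lemma hh_nonneg (d : ℕ) : 0 ≤ hh d := by
  unfold hh
  split_ifs with h
  · apply prod_nonneg
    intro p hp
    have h2 := (Nat.prime_of_mem_primeFactors hp).two_le
    have h3 : (2 : ℝ) ≤ p := by exact_mod_cast h2
    apply div_nonneg zero_le_one
    linarith
  · exact le_rfl

lemma hh_zero : hh 0 = 0 := by
  unfold hh
  rw [if_neg]
  rintro ⟨_, h⟩
  exact (Nat.not_odd_iff_even.2 (Even.zero)) h

lemma hh_one : hh 1 = 1 := by
  unfold hh
  rw [if_pos ⟨squarefree_one, odd_one⟩]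
  simp

lemma hh_mul {m n : ℕ} (h : m.Coprime n) : hh (m * n) = hh m * hh n := by
  unfold hh
  by_cases hm : Squarefree m ∧ Odd m
  · by_cases hn : Squarefree n ∧ Odd n
    · rw [if_pos hm, if_pos hn, if_pos ⟨(Nat.squarefree_mul h).2 ⟨hm.1, hn.1⟩, hm.2.mul hn.2⟩]
      rw [h.primeFactors_mul, prod_union h.disjoint_primeFactors]
    · rw [if_neg hn, if_neg, mul_zero]
      rintro ⟨h1, h2⟩
      exact hn ⟨((Nat.squarefree_mul h).1 h1).2, (Nat.odd_mul.1 h2).2⟩
  · rw [if_neg hm, if_neg, zero_mul]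
    rintro ⟨h1, h2⟩
    exact hm ⟨((Nat.squarefree_mul h).1 h1).1, (Nat.odd_mul.1 h2).1⟩

/-- the summand -/
noncomputable def ff (k d : ℕ) : ℝ := if d.Coprime k then hh d / d else 0

lemma ff_nonneg (k d : ℕ) : 0 ≤ ff k d := by
  unfold ff
  split_ifs
  · exact div_nonneg (hh_nonneg d) (Nat.cast_nonneg d)
  · exact le_rfl

lemma ff_zero (k : ℕ) : ff k 0 = 0 := by
  unfold ff; simp

lemma ff_one (k : ℕ) : ff k 1 = 1 := by
  unfold ff; simp [hh_one]

lemma ff_mul (k : ℕ) {m n : ℕ} (h : m.Coprime n) : ff k (m * n) = ff k m * ff k n := by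
  unfold ff
  by_cases hm : m.Coprime k
  · by_cases hn : n.Coprime k
    · rw [if_pos hm, if_pos hn, if_pos (Nat.Coprime.mul_left hm hn), hh_mul h]
      push_cast
      rw [div_mul_div_comm]
    · rw [if_neg hn, if_neg, mul_zero]
      intro h1
      exact hn (Nat.Coprime.coprime_mul_left h1)
  · rw [if_neg hm, if_neg, zero_mul]
    intro h1
    exact hm (Nat.Coprime.coprime_mul_right h1)

lemma ff_pow (k : ℕ) {p e : ℕ} (hp : p.Prime) (he : 2 ≤ e) : ff k (p ^ e) = 0 := by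
  unfold ff
  have h1 : hh (p ^ e) = 0 := by
    unfold hh
    rw [if_neg]
    rintro ⟨h2, _⟩
    have h3 := (Nat.squarefree_pow_iff hp.one_lt.ne' (by omega)).1 h2
    omega
  rw [h1]; simp

lemma ff_tsum (k : ℕ) {p : ℕ} (hp : p.Prime) : ∑' e : ℕ, ff k (p ^ e) = 1 + ff k p := by
  rw [tsum_eq_sum (s := range 2)]
  · rw [sum_range_succ, sum_range_one, pow_zero, pow_one, ff_one]
  · intro e he
    rw [mem_range, not_lt] at he
    exact ff_pow k hp he

lemma ff_sum (k : ℕ) {p : ℕ} (hp : p.Prime) : Summable (fun e : ℕ => ‖ff k (p ^ e)‖) := by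
  have h : HasSum (fun e : ℕ => ‖ff k (p ^ e)‖) (∑ e ∈ range 2, ‖ff k (p ^ e)‖) := by
    apply hasSum_sum_of_ne_finset_zero
    intro e he
    rw [mem_range, not_lt] at he
    rw [ff_pow k hp he, norm_zero]
  exact h.summable

lemma ff_prime {k p : ℕ} (hp : p.Prime) (h3 : 3 ≤ p) :
    1 + ff k p = (fc p)⁻¹ * (if p ∣ k then fc p else 1) := by
  split_ifs with h
  · rw [inv_mul_cancel₀ (fc_pos h3).ne']
    unfold ff
    rw [if_neg, add_zero]
    intro h1
    have h2 := Nat.Coprime.eq_one_of_dvd h1 h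
    omega
  · rw [mul_one]
    unfold ff
    rw [if_pos ((Nat.Prime.coprime_iff_not_dvd hp).2 h)]
    have ho : Odd p := hp.odd_of_ne_two (by omega)
    unfold hh fc
    rw [if_pos ⟨hp.squarefree, ho⟩, hp.primeFactors, prod_singleton]
    have h4 : (3 : ℝ) ≤ p := by exact_mod_cast h3
    have e0 : (p : ℝ) ≠ 0 := by linarith
    have e1 : (p : ℝ) - 1 ≠ 0 := by intro h; linarith
    have e2 : (p : ℝ) - 2 ≠ 0 := by intro h; linarith
    have e3 : 1 - 1 / ((p : ℝ) - 1) ^ 2 = (p * (p - 2)) / ((p : ℝ) - 1) ^ 2 := by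
      field_simp
      ring
    rw [e3, inv_div]
    field_simp
    ring

lemma ff_two {k : ℕ} (hk : Even k) : 1 + ff k 2 = 1 := by
  unfold ff
  rw [if_neg, add_zero]
  intro h1
  have h2 := Nat.Coprime.eq_one_of_dvd h1 hk.two_dvd
  omega

lemma prod_below {k : ℕ} (hk : Even k) (z : ℕ) :
    ∏ p ∈ Nat.primesBelow (z + 1), (1 + ff k p) =
      (cp z)⁻¹ * ∏ p ∈ ((Icc 3 z).filter Nat.Prime).filter (fun p => p ∣ k), fc p := by
  have hsub : (Icc 3 z).filter Nat.Prime ⊆ Nat.primesBelow (z + 1) := by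
    intro p hp
    rw [mem_filter, mem_Icc] at hp
    rw [Nat.mem_primesBelow]
    exact ⟨by omega, hp.2⟩
  rw [← prod_subset hsub]
  · rw [prod_filter (s := (Icc 3 z).filter Nat.Prime)]
    unfold cp
    rw [← prod_inv_distrib, ← prod_mul_distrib]
    apply prod_congr rfl
    intro p hp
    rw [mem_filter, mem_Icc] at hp
    exact ff_prime hp.2 hp.1.1
  · intro p hp hp'
    rw [Nat.mem_primesBelow] at hp
    rw [mem_filter, mem_Icc] at hp'
    have h2 := hp.2.two_le
    have h3 : p = 2 := by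
      by_contra h4
      exact hp' ⟨⟨by omega, by omega⟩, hp.2⟩
    rw [h3]
    exact ff_two hk

lemma prod_below_le {k : ℕ} (hk : Even k) (z : ℕ) :
    ∏ p ∈ Nat.primesBelow (z + 1), (1 + ff k p) ≤ 2 := by
  rw [prod_below hk z]
  have h1 : (cp z)⁻¹ ≤ 2 := by
    rw [inv_le_comm₀ (cp_pos z) (by norm_num)]
    have := cp_ge z
    norm_num at this ⊢
    linarith
  have h2 : ∏ p ∈ ((Icc 3 z).filter Nat.Prime).filter (fun p => p ∣ k), fc p ≤ 1 := by
    refine prod_le_one (fun p hp => ?_) (fun p hp => fc_le p)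
    rw [mem_filter, mem_filter, mem_Icc] at hp
    exact (fc_pos hp.1.1.1).le
  have h3 : 0 ≤ (cp z)⁻¹ := (inv_pos.2 (cp_pos z)).le
  nlinarith

lemma ff_summable {k : ℕ} (hk : Even k) : Summable (ff k) := by
  apply summable_of_sum_le (c := 2) (ff_nonneg k)
  intro u
  have h1 := (EulerProduct.summable_and_hasSum_smoothNumbers_prod_primesBelow_tsum (ff_one k)
    (fun {m n} h => ff_mul k h) (fun {p} hp => ff_sum k hp) (u.sup id + 1)).2
  have h2 : ∏ p ∈ Nat.primesBelow (u.sup id + 1), ∑' e : ℕ, ff k (p ^ e) =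
      ∏ p ∈ Nat.primesBelow (u.sup id + 1), (1 + ff k p) := by
    apply prod_congr rfl
    intro p hp
    exact ff_tsum k (Nat.mem_primesBelow.1 hp).2
  rw [h2] at h1
  have h3 := (hasSum_subtype_iff_indicator (f := ff k)).1 h1
  have h4 : ∑ d ∈ u, ff k d ≤ ∑ d ∈ u, (Nat.smoothNumbers (u.sup id + 1)).indicator (ff k) d := by
    apply sum_le_sum
    intro d hd
    rcases Nat.eq_zero_or_pos d with h | h
    · subst h
      rw [ff_zero]
      exact Set.indicator_nonneg (fun x _ => ff_nonneg k x) 0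
    · have h5 : d ≤ u.sup id := Finset.le_sup (f := id) hd
      rw [Set.indicator_of_mem (Nat.mem_smoothNumbers_of_lt h (by omega))]
  refine h4.trans ((sum_le_hasSum u (fun x _ => Set.indicator_nonneg (fun x _ => ff_nonneg k x) x) h3).trans ?_)
  exact prod_below_le hk _

lemma tail_filter {k z : ℕ} (hk1 : 1 ≤ k) (hz : k ≤ z) :
    ((Icc 3 z).filter Nat.Prime).filter (fun p => p ∣ k) = k.primeFactors.filter (fun p => 2 < p) := by
  ext p
  rw [mem_filter, mem_filter, mem_filter, mem_Icc, Nat.mem_primeFactors]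
  constructor
  · rintro ⟨⟨⟨a, b⟩, c⟩, d⟩
    exact ⟨⟨c, d, by omega⟩, a⟩
  · rintro ⟨⟨c, d, _⟩, a⟩
    exact ⟨⟨⟨a, (Nat.le_of_dvd hk1 d).trans hz⟩, c⟩, d⟩

lemma ff_tsum_eq {k : ℕ} (hk1 : 1 ≤ k) (hk : Even k) :
    ∑' d : ℕ, ff k d = C₂⁻¹ * ∏ p ∈ k.primeFactors.filter (fun p => 2 < p), fc p := by
  have hs : Summable (fun d => ‖ff k d‖) := by
    have : (fun d => ‖ff k d‖) = ff k := by
      funext d
      rw [Real.norm_eq_abs, abs_of_nonneg (ff_nonneg k d)]
    rw [this]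
    exact ff_summable hk
  have h1 := EulerProduct.eulerProduct (ff_one k) (fun {m n} h => ff_mul k h) hs (ff_zero k)
  have h2 := (tendsto_add_atTop_iff_nat 1).2 h1
  have h3 : Tendsto (fun z => (cp z)⁻¹ * ∏ p ∈ k.primeFactors.filter (fun p => 2 < p), fc p) atTop
      (𝓝 (C₂⁻¹ * ∏ p ∈ k.primeFactors.filter (fun p => 2 < p), fc p)) :=
    (cp_tendsto.inv₀ C2_pos.ne').mul_const _
  refine tendsto_nhds_unique h2 (h3.congr' ?_)
  filter_upwards [eventually_ge_atTop k] with z hz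
  rw [← tail_filter hk1 hz, ← prod_below hk z]
  apply prod_congr rfl
  intro p hp
  exact (ff_tsum k (Nat.mem_primesBelow.1 hp).2).symm

lemma tot_eq {k : ℕ} (hk1 : 1 ≤ k) (hk : Even k) :
    (k : ℝ) / Nat.totient k = 2 * ∏ p ∈ k.primeFactors.filter (fun p => 2 < p), ((p : ℝ) / (p - 1)) := by
  have h1 : ((Nat.totient k : ℕ) : ℝ) = k * ∏ p ∈ k.primeFactors, (1 - (p : ℝ)⁻¹) := by
    have h := Nat.totient_eq_mul_prod_factors k
    have h2 : (((Nat.totient k : ℕ) : ℚ) : ℝ) = ((k * ∏ p ∈ k.primeFactors, (1 - (p : ℚ)⁻¹) : ℚ) : ℝ) := by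
      rw [h]
    push_cast at h2
    exact h2
  have h2 : k.primeFactors = insert 2 (k.primeFactors.filter (fun p => 2 < p)) := by
    ext p
    rw [mem_insert, mem_filter, Nat.mem_primeFactors]
    constructor
    · rintro ⟨a, b, c⟩
      rcases Nat.lt_or_ge 2 p with h | h
      · exact Or.inr ⟨⟨a, b, c⟩, h⟩
      · exact Or.inl (le_antisymm h a.two_le)
    · rintro (rfl | ⟨h, _⟩)
      · exact ⟨Nat.prime_two, hk.two_dvd, by omega⟩
      · exact h
  have hk0 : (k : ℝ) ≠ 0 := by exact_mod_cast (by omega : k ≠ 0)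
  rw [h1, h2, prod_insert (by simp)]
  have h3 : ∀ p ∈ (insert 2 (k.primeFactors.filter (fun p => 2 < p))).filter (fun p => 2 < p),
      ((p : ℝ) / (p - 1)) = (1 - (p : ℝ)⁻¹)⁻¹ := by
    intro p hp
    rw [mem_filter] at hp
    have h4 : (2 : ℝ) < p := by exact_mod_cast hp.2
    have e0 : (p : ℝ) ≠ 0 := by linarith
    have e1 : (p : ℝ) - 1 ≠ 0 := by intro h; linarith
    have e2 : 1 - (p : ℝ)⁻¹ = (p - 1) / p := by field_simp
    rw [e2, inv_div]
  rw [prod_congr rfl h3, prod_inv_distrib]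
  have h5 : (insert 2 (k.primeFactors.filter (fun p => 2 < p))).filter (fun p => 2 < p) =
      k.primeFactors.filter (fun p => 2 < p) := by
    rw [← h2]
  rw [h5]
  have h6 : ∏ p ∈ k.primeFactors.filter (fun p => 2 < p), (1 - (p : ℝ)⁻¹) ≠ 0 := by
    rw [prod_ne_zero_iff]
    intro p hp
    rw [mem_filter] at hp
    have h4 : (2 : ℝ) < p := by exact_mod_cast hp.2
    have h7 : (p : ℝ)⁻¹ < 1 := inv_lt_one_of_one_lt₀ (by linarith)
    linarith
  push_cast
  field_simp
  norm_num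

theorem eul : S_EUL := by
  intro k hk1 hk
  refine ⟨ff_summable hk, ?_⟩
  have h1 : ∑' d : ℕ, (if d.Coprime k then hh d / d else 0) = ∑' d : ℕ, ff k d := rfl
  rw [h1, ff_tsum_eq hk1 hk, tot_eq hk1 hk]
  unfold sing
  have hC := C2_pos.ne'
  have h2 : ∀ p ∈ k.primeFactors.filter (fun p => 2 < p),
      ((p : ℝ) / (p - 1)) = ((p : ℝ) - 1) / ((p : ℝ) - 2) * fc p := by
    intro p hp
    rw [mem_filter] at hp
    have h4 : (2 : ℝ) < p := by exact_mod_cast hp.2
    have e0 : (p : ℝ) ≠ 0 := by linarith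
    have e1 : (p : ℝ) - 1 ≠ 0 := by intro h; linarith
    have e2 : (p : ℝ) - 2 ≠ 0 := by intro h; linarith
    unfold fc
    have e3 : 1 - 1 / ((p : ℝ) - 1) ^ 2 = (p * (p - 2)) / ((p : ℝ) - 1) ^ 2 := by
      field_simp
      ring
    rw [e3]
    field_simp
  rw [prod_congr rfl h2, prod_mul_distrib]
  field_simp

/-! ### EXP -/

lemma sqf_prod {S : Finset ℕ} (hS : ∀ p ∈ S, p.Prime) : Squarefree (∏ p ∈ S, p) := by
  refine Finset.squarefree_prod_of_pairwise_isCoprime (fun p hp q hq hpq => ?_)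
    fun p hp => (hS p hp).squarefree
  simp only [Function.onFun, ← Nat.coprime_iff_isRelPrime]
  exact (Nat.coprime_primes (hS p hp) (hS q hq)).mpr hpq

lemma exp_sum {j k : ℕ} (hj : 1 ≤ j) (hk1 : 1 ≤ k) (hk : Even k) :
    ∑ d ∈ j.divisors.filter (fun d => d.Coprime k), hh d =
      ∑ S ∈ (j.primeFactors.filter (fun p => ¬ p ∣ k)).powerset, ∏ p ∈ S, (1 / ((p : ℝ) - 2)) := by
  have h1 : ∑ d ∈ j.divisors.filter (fun d => d.Coprime k), hh d =
      ∑ d ∈ (j.divisors.filter (fun d => d.Coprime k)).filter (fun d => Squarefree d), hh d := by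
    refine (sum_filter_of_ne ?_).symm
    intro d hd hne
    by_contra h
    apply hne
    unfold hh
    rw [if_neg (fun h' => h h'.1)]
  rw [h1]
  refine sum_nbij' (fun d => d.primeFactors) (fun S => ∏ p ∈ S, p) ?_ ?_ ?_ ?_ ?_
  · intro d hd
    rw [mem_filter, mem_filter, Nat.mem_divisors] at hd
    rw [mem_powerset]
    intro p hp
    rw [mem_filter]
    refine ⟨Nat.primeFactors_mono hd.1.1.1 (by omega) hp, ?_⟩
    intro h
    have h2 := Nat.dvd_of_mem_primeFactors hp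
    have h3 := Nat.Coprime.coprime_dvd_left h2 hd.1.2
    have h4 := Nat.Coprime.eq_one_of_dvd h3 h
    exact (Nat.prime_of_mem_primeFactors hp).one_lt.ne' h4
  · intro S hS
    rw [mem_powerset] at hS
    have hSp : ∀ p ∈ S, p.Prime := fun p hp => Nat.prime_of_mem_primeFactors (mem_filter.1 (hS hp)).1
    rw [mem_filter, mem_filter, Nat.mem_divisors]
    refine ⟨⟨⟨?_, by omega⟩, ?_⟩, sqf_prod hSp⟩
    · refine (prod_dvd_prod_of_subset S j.primeFactors (fun p => p) ?_).trans (Nat.prod_primeFactors_dvd j)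
      exact hS.trans (filter_subset _ _)
    · apply Nat.Coprime.prod_left
      intro p hp
      exact (Nat.Prime.coprime_iff_not_dvd (hSp p hp)).2 (mem_filter.1 (hS hp)).2
  · intro d hd
    rw [mem_filter] at hd
    exact Nat.prod_primeFactors_of_squarefree hd.2
  · intro S hS
    rw [mem_powerset] at hS
    exact Nat.primeFactors_prod fun p hp => Nat.prime_of_mem_primeFactors (mem_filter.1 (hS hp)).1
  · intro d hd
    rw [mem_filter, mem_filter] at hd
    unfold hh
    rw [if_pos]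
    refine ⟨hd.2, ?_⟩
    rw [← Nat.not_even_iff_odd]
    intro he
    have h2 := Nat.Coprime.coprime_dvd_left he.two_dvd hd.1.2
    have h3 := Nat.Coprime.eq_one_of_dvd h2 hk.two_dvd
    omega

theorem exp : S_EXP := by
  intro j k hj hk1 hk
  rw [exp_sum hj hk1 hk, ← prod_one_add]
  unfold sing
  rw [mul_assoc (2 * C₂)]
  congr 1
  have h1 : (j * k).primeFactors.filter (fun p => 2 < p) =
      k.primeFactors.filter (fun p => 2 < p) ∪ j.primeFactors.filter (fun p => ¬ p ∣ k) := by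
    ext p
    rw [mem_union, mem_filter, mem_filter, mem_filter, Nat.primeFactors_mul (by omega) (by omega), mem_union]
    constructor
    · rintro ⟨h1 | h1, h2⟩
      · by_cases h3 : p ∣ k
        · exact Or.inl ⟨Nat.mem_primeFactors.2 ⟨Nat.prime_of_mem_primeFactors h1, h3, by omega⟩, h2⟩
        · exact Or.inr ⟨h1, h3⟩
      · exact Or.inl ⟨h1, h2⟩
    · rintro (⟨h1, h2⟩ | ⟨h1, h2⟩)
      · exact ⟨Or.inr h1, h2⟩
      · refine ⟨Or.inl h1, ?_⟩
        have h3 := (Nat.prime_of_mem_primeFactors h1).two_le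
        rcases Nat.lt_or_ge 2 p with h | h
        · exact h
        · exfalso
          apply h2
          have : p = 2 := by omega
          rw [this]
          exact hk.two_dvd
  have h2 : Disjoint (k.primeFactors.filter (fun p => 2 < p)) (j.primeFactors.filter (fun p => ¬ p ∣ k)) := by
    rw [Finset.disjoint_left]
    intro p hp hp'
    rw [mem_filter] at hp hp'
    exact hp'.2 (Nat.dvd_of_mem_primeFactors hp.1)
  rw [h1, prod_union h2]
  congr 1
  apply prod_congr rfl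
  intro p hp
  rw [mem_filter] at hp
  have h3 := (Nat.prime_of_mem_primeFactors hp.1).two_le
  have h4 : 2 < p := by
    rcases Nat.lt_or_ge 2 p with h | h
    · exact h
    · exfalso
      apply hp.2
      have : p = 2 := by omega
      rw [this]
      exact hk.two_dvd
  have h5 : (2 : ℝ) < p := by exact_mod_cast h4
  have e2 : (p : ℝ) - 2 ≠ 0 := by intro h; linarith
  field_simp
  ring

end Pool.Agent.P8H52.FG
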