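import Pool.Agent.P8H15.FG.Stm2

/-!
# Project FG (helper15), package STIR
-/

set_option autoImplicit false

namespace Pool.Agent.P8H52.FG

open Finset Filter Topology
open Pool.Agent.P8H15.FG

/-- a sequence which converges to `a`, with decrements at most `1 / (2 n) - 1 / (2 (n + 1))` -/
lemma lim_bd (c : ℕ → ℝ) (a : ℝ) (hlim : Tendsto c atTop (𝓝 a))
    (hc : ∀ n, 1 ≤ n → c n - c (n + 1) ≤ 1 / (4 * (n : ℝ) ^ 2)) (n : ℕ) (hn : 1 ≤ n) :
    c n - a ≤ 1 / (2 * n) := by
  have hmono : ∀ m, n ≤ m → c n - 1 / (2 * (n : ℝ)) ≤ c m - 1 / (2 * (m : ℝ)) := by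
    intro m hm
    induction m, hm using Nat.le_induction with
    | base => exact le_rfl
    | succ m hm ih =>
      refine ih.trans ?_
      have h1 := hc m (hn.trans hm)
      have hm1 : (1 : ℝ) ≤ m := by exact_mod_cast hn.trans hm
      have h2 : 1 / (4 * (m : ℝ) ^ 2) ≤ 1 / (2 * (m : ℝ)) - 1 / (2 * ((m + 1 : ℕ) : ℝ)) := by
        push_cast
        have h3 : 1 / (2 * (m : ℝ)) - 1 / (2 * ((m : ℝ) + 1)) = 1 / (2 * m * (m + 1)) := by
          field_simp
          ring
        rw [h3]
        apply one_div_le_one_div_of_le (by positivity)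
        nlinarith
      linarith
  have hlim2 : Tendsto (fun m : ℕ => c m - 1 / (2 * (m : ℝ))) atTop (𝓝 (a - 0)) := by
    refine hlim.sub ?_
    have h1 : Tendsto (fun m : ℕ => (2 : ℝ) * (m : ℝ)) atTop atTop :=
      tendsto_natCast_atTop_atTop.const_mul_atTop (by norm_num)
    exact h1.const_div_atTop 1
  have h := ge_of_tendsto hlim2 (eventually_atTop.2 ⟨n, hmono⟩)
  linarith

theorem stir : S_STIR := by
  refine ⟨1, one_pos, fun n hn => ?_⟩
  have hn0 : n ≠ 0 := by omega
  have hnR : (1 : ℝ) ≤ n := by exact_mod_cast hn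
  have hpi := Real.pi_pos
  have hlow := Stirling.le_log_factorial_stirling hn0
  have hlim : Tendsto (fun n => Real.log (Stirling.stirlingSeq n)) atTop (𝓝 (Real.log √Real.pi)) :=
    Stirling.tendsto_stirlingSeq_sqrt_pi.log (Real.sqrt_pos.2 hpi).ne'
  have hup := lim_bd _ _ hlim (fun m _ => Stirling.log_stirlingSeq_sub_log_stirlingSeq_succ m) n hn
  rw [Stirling.log_stirlingSeq_formula] at hup
  have e1 : Real.log √Real.pi = Real.log Real.pi / 2 := Real.log_sqrt hpi.le
  have e2 : Real.log ((n : ℝ) / Real.exp 1) = Real.log n - 1 := by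
    rw [Real.log_div (by linarith) (Real.exp_pos 1).ne', Real.log_exp]
  have e3 : Real.log (2 * (n : ℝ)) = Real.log 2 + Real.log n := Real.log_mul (by norm_num) (by linarith)
  have e4 : Real.log (2 * Real.pi * n) = Real.log 2 + Real.log Real.pi + Real.log n := by
    rw [Real.log_mul (by positivity) (by linarith), Real.log_mul (by norm_num) hpi.ne']
  have e5 : Real.log (2 * Real.pi) = Real.log 2 + Real.log Real.pi := Real.log_mul (by norm_num) hpi.ne'
  rw [e1, e2, e3] at hup
  rw [e5] at hlow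
  rw [e4]
  have h3 : 1 / (2 * (n : ℝ)) ≤ 1 / n := one_div_le_one_div_of_le (by linarith) (by linarith)
  have h4 : (0 : ℝ) ≤ 1 / n := by positivity
  rw [abs_le]
  constructor
  · nlinarith
  · nlinarith

end Pool.Agent.P8H52.FG
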