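import Pool.Agent.P8H52.FG.Usq

/-!
# Project FG (helper15), package USQ: conclusion
-/

set_option autoImplicit false

namespace Pool.Agent.P8H52.FG

open Finset Filter Topology
open Pool.Agent.P8H15.FG

/-- the harmonic numbers -/
noncomputable def HN (n : ℕ) : ℝ := ∑ m ∈ Icc 1 n, 1 / (m : ℝ)

lemma UU_eq (N : ℕ) : UU ((N : ℝ) ^ 2) = ∑ p ∈ hyp (N ^ 2), ((N : ℝ) ^ 2 / p.1 - p.2) := by
  have h0 : ((N : ℝ) ^ 2) = ((N ^ 2 : ℕ) : ℝ) := by push_cast; rfl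
  unfold UU
  rw [h0, Nat.floor_natCast]
  rw [← sum_div (N ^ 2) (fun m l => ((N ^ 2 : ℕ) : ℝ) / m - l)]
  apply Finset.sum_congr rfl
  intro n hn
  unfold sg1
  rw [Finset.sum_mul]
  apply Finset.sum_congr rfl
  intro m hm
  have hd := (Nat.mem_divisors.1 hm).1
  have hn0 := (Nat.mem_divisors.1 hm).2
  have hm0 : m ≠ 0 := by
    rintro rfl
    exact hn0 (Nat.eq_zero_of_zero_dvd hd)
  have hmR : (m : ℝ) ≠ 0 := by exact_mod_cast hm0
  have h1 : (n : ℝ) = m * ((n / m : ℕ) : ℝ) := by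
    rw [← Nat.cast_mul, Nat.mul_div_cancel' hd]
  rw [h1]
  field_simp

lemma split_hyp (N : ℕ) (G : ℕ → ℕ → ℝ) : ∑ p ∈ hyp (N ^ 2), G p.1 p.2 =
    (∑ m ∈ Icc 1 N, ∑ l ∈ Icc 1 (N ^ 2 / m), G m l) + ∑ l ∈ Icc 1 N, ∑ m ∈ Ioc N (N ^ 2 / l), G m l := by
  rw [← Finset.sum_filter_add_sum_filter_not (hyp (N ^ 2)) (fun p => p.1 ≤ N)]
  congr 1
  · rw [Finset.sum_finset_product ((hyp (N ^ 2)).filter (fun p => p.1 ≤ N)) (Icc 1 N)
      (fun m => Icc 1 (N ^ 2 / m))]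
    rintro ⟨m, l⟩
    rw [mem_filter, mem_hyp]
    simp only [mem_Icc]
    constructor
    · rintro ⟨⟨h1, h2, h3⟩, h4⟩
      refine ⟨⟨h1, h4⟩, h2, ?_⟩
      rw [Nat.le_div_iff_mul_le (by omega), mul_comm]
      exact h3
    · rintro ⟨⟨h1, h4⟩, h2, h3⟩
      rw [Nat.le_div_iff_mul_le (by omega), mul_comm] at h3
      exact ⟨⟨h1, h2, h3⟩, h4⟩
  · rw [Finset.sum_finset_product_right ((hyp (N ^ 2)).filter (fun p => ¬ p.1 ≤ N)) (Icc 1 N)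
      (fun l => Ioc N (N ^ 2 / l))]
    rintro ⟨m, l⟩
    rw [mem_filter, mem_hyp]
    simp only [mem_Icc, mem_Ioc]
    constructor
    · rintro ⟨⟨h1, h2, h3⟩, h4⟩
      have h5 : N < m := by omega
      refine ⟨⟨h2, ?_⟩, h5, ?_⟩
      · by_contra h6
        have h7 : N < l := by omega
        nlinarith
      · rw [Nat.le_div_iff_mul_le (by omega)]
        exact h3
    · rintro ⟨⟨h2, h4⟩, h5, h3⟩
      rw [Nat.le_div_iff_mul_le (by omega)] at h3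
      exact ⟨⟨by omega, h2, h3⟩, by omega⟩

lemma HN_sub (N M : ℕ) (h : N ≤ M) : ∑ m ∈ Ioc N M, 1 / (m : ℝ) = HN M - HN N := by
  induction M, h using Nat.le_induction with
  | base => simp
  | succ M hM ih =>
    rw [Finset.sum_Ioc_succ_top (by omega), ih]
    have : HN (M + 1) = HN M + 1 / ((M + 1 : ℕ) : ℝ) := by
      unfold HN
      rw [Finset.sum_Icc_succ_top (by omega)]
    rw [this]
    ring

lemma innerB (N l : ℕ) (hl : 1 ≤ l) (hlN : l ≤ N) :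
    ∑ m ∈ Ioc N (N ^ 2 / l), ((N : ℝ) ^ 2 / m - l) =
      ((N : ℝ) ^ 2 * HN (N ^ 2 / l) - l * ((N ^ 2 / l : ℕ) : ℝ)) - (N : ℝ) ^ 2 * HN N + N * l := by
  have hM : N ≤ N ^ 2 / l := by
    rw [Nat.le_div_iff_mul_le (by omega)]
    nlinarith
  have h1 : ∀ m ∈ Ioc N (N ^ 2 / l), ((N : ℝ) ^ 2 / m - l) = (N : ℝ) ^ 2 * (1 / (m : ℝ)) - l := by
    intro m _
    ring
  rw [Finset.sum_congr rfl h1, Finset.sum_sub_distrib, ← Finset.mul_sum, HN_sub N _ hM, sum_const, Nat.card_Ioc,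
    nsmul_eq_mul, Nat.cast_sub hM]
  ring

lemma sum_log (N : ℕ) : ∑ l ∈ Icc 1 N, Real.log l = Real.log (N.factorial) := by
  induction N with
  | zero => simp
  | succ N ih =>
    rw [Finset.sum_Icc_succ_top (by omega), ih, Nat.factorial_succ]
    push_cast
    rw [Real.log_mul (by positivity) (by positivity)]
    ring

lemma sum_id (n : ℕ) : ∑ l ∈ Icc 1 n, (l : ℝ) = n * (n + 1) / 2 := by
  induction n with
  | zero => simp
  | succ n ih =>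
    rw [Finset.sum_Icc_succ_top (by omega), ih]
    push_cast
    ring

lemma abs_sum_sub {s : Finset ℕ} (f g : ℕ → ℝ) (K : ℝ) (h : ∀ i ∈ s, |f i - g i| ≤ K) :
    |∑ i ∈ s, f i - ∑ i ∈ s, g i| ≤ s.card * K := by
  rw [← Finset.sum_sub_distrib]
  refine (Finset.abs_sum_le_sum_abs _ _).trans ?_
  refine (Finset.sum_le_sum h).trans ?_
  rw [sum_const, nsmul_eq_mul]

theorem usq : S_HARM → S_STIR → S_USQ := by
  rintro ⟨C₁, hC₁, hH⟩ ⟨C₂, hC₂, hS⟩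
  refine ⟨10 + 10 * C₁ + C₂, by positivity, fun N hN => ?_⟩
  have hNR : (1 : ℝ) ≤ N := by exact_mod_cast hN
  have hn0 : (N : ℝ) ≠ 0 := by linarith
  rw [UU_eq, split_hyp N (fun m l => (N : ℝ) ^ 2 / m - l)]
  -- first part
  have hA : |∑ m ∈ Icc 1 N, ∑ l ∈ Icc 1 (N ^ 2 / m), ((N : ℝ) ^ 2 / m - l) -
      ((N : ℝ) ^ 4 / 2 * ∑ m ∈ Icc 1 N, 1 / (m : ℝ) ^ 2 - (N : ℝ) ^ 2 / 2 * HN N)| ≤ (N : ℝ) * 1 := by
    have h1 : (N : ℝ) ^ 4 / 2 * ∑ m ∈ Icc 1 N, 1 / (m : ℝ) ^ 2 - (N : ℝ) ^ 2 / 2 * HN N =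
        ∑ m ∈ Icc 1 N, (((N : ℝ) ^ 2 / m) ^ 2 / 2 - ((N : ℝ) ^ 2 / m) / 2) := by
      unfold HN
      rw [Finset.mul_sum, Finset.mul_sum, ← Finset.sum_sub_distrib]
      apply Finset.sum_congr rfl
      intro m hm
      rw [mem_Icc] at hm
      have : (m : ℝ) ≠ 0 := by
        have : (1 : ℝ) ≤ m := by exact_mod_cast hm.1
        linarith
      field_simp
    rw [h1]
    have h2 := abs_sum_sub (s := Icc 1 N) (fun m => ∑ l ∈ Icc 1 (N ^ 2 / m), ((N : ℝ) ^ 2 / m - l))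
      (fun m => (((N : ℝ) ^ 2 / m) ^ 2 / 2 - ((N : ℝ) ^ 2 / m) / 2)) 1 (fun m hm => by
        rw [mem_Icc] at hm
        have := partA (N ^ 2) m hm.1
        push_cast at this
        exact this)
    rw [Nat.card_Icc, Nat.add_sub_cancel] at h2
    exact h2
  -- second part
  have hB : |∑ l ∈ Icc 1 N, ((N : ℝ) ^ 2 * HN (N ^ 2 / l) - l * ((N ^ 2 / l : ℕ) : ℝ)) -
      ((N : ℝ) ^ 2 * (2 * N * Real.log N - Real.log N.factorial + N * Real.eulerMascheroniConstant) +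
        N * (N + 1) / 4 - N * (N : ℝ) ^ 2)| ≤ (N : ℝ) * (4 * C₁ + 4) := by
    have h1 : (N : ℝ) ^ 2 * (2 * N * Real.log N - Real.log N.factorial + N * Real.eulerMascheroniConstant) +
        N * (N + 1) / 4 - N * (N : ℝ) ^ 2 = ∑ l ∈ Icc 1 N,
        ((N : ℝ) ^ 2 * (2 * Real.log N - Real.log l + Real.eulerMascheroniConstant) + l / 2 - (N : ℝ) ^ 2) := by
      rw [Finset.sum_sub_distrib, Finset.sum_add_distrib, ← Finset.mul_sum, Finset.sum_add_distrib,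
        Finset.sum_sub_distrib, sum_log, ← Finset.sum_div, sum_id, sum_const, sum_const, sum_const, Nat.card_Icc]
      simp only [nsmul_eq_mul, Nat.add_sub_cancel]
      ring
    rw [h1]
    have h2 := abs_sum_sub (s := Icc 1 N) (fun l => ((N : ℝ) ^ 2 * HN (N ^ 2 / l) - l * ((N ^ 2 / l : ℕ) : ℝ)))
      (fun l => ((N : ℝ) ^ 2 * (2 * Real.log N - Real.log l + Real.eulerMascheroniConstant) + l / 2 - (N : ℝ) ^ 2))
      (4 * C₁ + 4) (fun l hl => by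
        rw [mem_Icc] at hl
        exact partB C₁ hC₁ HN (fun n hn => hH n hn) N l hl.1 hl.2)
    rw [Nat.card_Icc, Nat.add_sub_cancel] at h2
    exact h2
  have hB2 : ∑ l ∈ Icc 1 N, ∑ m ∈ Ioc N (N ^ 2 / l), ((N : ℝ) ^ 2 / m - l) =
      ∑ l ∈ Icc 1 N, ((N : ℝ) ^ 2 * HN (N ^ 2 / l) - l * ((N ^ 2 / l : ℕ) : ℝ)) -
        N * ((N : ℝ) ^ 2 * HN N) + N * (N * (N + 1) / 2) := by
    have h1 : ∀ l ∈ Icc 1 N, ∑ m ∈ Ioc N (N ^ 2 / l), ((N : ℝ) ^ 2 / m - l) =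
        ((N : ℝ) ^ 2 * HN (N ^ 2 / l) - l * ((N ^ 2 / l : ℕ) : ℝ)) - (N : ℝ) ^ 2 * HN N + N * l := by
      intro l hl
      rw [mem_Icc] at hl
      exact innerB N l hl.1 hl.2
    have h2 : ∑ x ∈ Icc 1 N, (N : ℝ) * (x : ℝ) = N * (N * (N + 1) / 2) := by
      rw [← Finset.mul_sum, sum_id]
    rw [Finset.sum_congr rfl h1, Finset.sum_add_distrib, Finset.sum_sub_distrib, h2, sum_const,
      Nat.card_Icc, nsmul_eq_mul, Nat.add_sub_cancel]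
  rw [hB2]
  -- the constants
  have hZ := zet N hN
  have hH1 : |HN N - (Real.log N + Real.eulerMascheroniConstant + 1 / (2 * N))| ≤ C₁ / (N : ℝ) ^ 2 := hH N hN
  have hS1 := hS N hN
  have hlog : Real.log (2 * Real.pi * N) = Real.log (2 * Real.pi) + Real.log N :=
    Real.log_mul (by positivity) hn0
  rw [hlog] at hS1
  unfold MU
  have hlog2 : Real.log ((N : ℝ) ^ 2) = 2 * Real.log N := by
    rw [Real.log_pow]; push_cast; rfl
  rw [hlog2]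
  generalize Real.log (2 * Real.pi) = P at *
  generalize Real.eulerMascheroniConstant = G at *
  generalize Real.log N = L at *
  generalize Real.log (N.factorial) = F at *
  generalize HN N = h at *
  generalize ∑ m ∈ Icc 1 N, 1 / (m : ℝ) ^ 2 = Z at *
  generalize ∑ m ∈ Icc 1 N, ∑ l ∈ Icc 1 (N ^ 2 / m), ((N : ℝ) ^ 2 / m - l) = SA at *
  generalize ∑ l ∈ Icc 1 N, ((N : ℝ) ^ 2 * HN (N ^ 2 / l) - l * ((N ^ 2 / l : ℕ) : ℝ)) = SB at *
  generalize (N : ℝ) = n at *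
  obtain ⟨e1, he1⟩ : ∃ e, e = h - (L + G + 1 / (2 * n)) := ⟨_, rfl⟩
  obtain ⟨e2, he2⟩ : ∃ e, e = F - (n * L - n + 1 / 2 * (P + L)) := ⟨_, rfl⟩
  obtain ⟨e3, he3⟩ : ∃ e, e = Z - (Real.pi ^ 2 / 6 - 1 / n + 1 / (2 * n ^ 2)) := ⟨_, rfl⟩
  rw [← he1] at hH1
  rw [← he2] at hS1
  rw [← he3] at hZ
  have hh : h = e1 + (L + G + 1 / (2 * n)) := by rw [he1]; ring
  have hF : F = e2 + (n * L - n + 1 / 2 * (P + L)) := by rw [he2]; ring
  have hZe : Z = e3 + (Real.pi ^ 2 / 6 - 1 / n + 1 / (2 * n ^ 2)) := by rw [he3]; ring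
  have key : (n ^ 4 / 2 * Z - n ^ 2 / 2 * h) + (n ^ 2 * (2 * n * L - F + n * G) + n * (n + 1) / 4 - n * n ^ 2) -
      n * (n ^ 2 * h) + n * (n * (n + 1) / 2) -
      (Real.pi ^ 2 / 12 * (n ^ 2) ^ 2 - n ^ 2 / 2 * (2 * L + G + P - 1)) =
      n ^ 4 * e3 / 2 - n ^ 2 * e1 / 2 - n ^ 2 * e2 - n ^ 3 * e1 := by
    rw [hh, hF, hZe]
    field_simp
    ring
  have b3 : |n ^ 4 * e3 / 2| ≤ n := by
    have h1 : |n ^ 4 * e3 / 2| = n ^ 4 / 2 * |e3| := by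
      rw [show n ^ 4 * e3 / 2 = (n ^ 4 / 2) * e3 by ring, abs_mul, abs_of_nonneg (by positivity)]
    rw [h1]
    calc n ^ 4 / 2 * |e3| ≤ n ^ 4 / 2 * (1 / n ^ 3) := mul_le_mul_of_nonneg_left hZ (by positivity)
      _ = n / 2 := by field_simp
      _ ≤ n := by linarith
  have b1 : |n ^ 2 * e1 / 2| ≤ C₁ * n := by
    have h1 : |n ^ 2 * e1 / 2| = n ^ 2 / 2 * |e1| := by
      rw [show n ^ 2 * e1 / 2 = (n ^ 2 / 2) * e1 by ring, abs_mul, abs_of_nonneg (by positivity)]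
    rw [h1]
    calc n ^ 2 / 2 * |e1| ≤ n ^ 2 / 2 * (C₁ / n ^ 2) := mul_le_mul_of_nonneg_left hH1 (by positivity)
      _ = C₁ / 2 := by field_simp
      _ ≤ C₁ * n := by nlinarith
  have b2 : |n ^ 2 * e2| ≤ C₂ * n := by
    rw [abs_mul, abs_of_nonneg (by positivity : (0 : ℝ) ≤ n ^ 2)]
    calc n ^ 2 * |e2| ≤ n ^ 2 * (C₂ / n) := mul_le_mul_of_nonneg_left hS1 (by positivity)
      _ = C₂ * n := by field_simp
  have b4 : |n ^ 3 * e1| ≤ C₁ * n := by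
    rw [abs_mul, abs_of_nonneg (by positivity : (0 : ℝ) ≤ n ^ 3)]
    calc n ^ 3 * |e1| ≤ n ^ 3 * (C₁ / n ^ 2) := mul_le_mul_of_nonneg_left hH1 (by positivity)
      _ = C₁ * n := by field_simp
  rw [abs_le] at hA hB b1 b2 b3 b4 ⊢
  constructor
  · nlinarith [hA.1, hB.1, b1.2, b2.2, b3.1, b4.2, mul_pos hC₁ (by linarith : (0 : ℝ) < n)]
  · nlinarith [hA.2, hB.2, b1.1, b2.1, b3.2, b4.1, mul_pos hC₁ (by linarith : (0 : ℝ) < n)]

end Pool.Agent.P8H52.FG
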