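import Pool.Agent.P8H15.FG.Stm2

/-!
# Project FG (helper15), package USQ: the hyperbola method at the squares
-/

set_option autoImplicit false

namespace Pool.Agent.P8H52.FG

open Finset Filter Topology
open Pool.Agent.P8H15.FG

/-- the partial sums of `ζ(2)` -/
lemma zet (n : ℕ) (hn : 1 ≤ n) :
    |∑ m ∈ Icc 1 n, 1 / (m : ℝ) ^ 2 - (Real.pi ^ 2 / 6 - 1 / n + 1 / (2 * (n : ℝ) ^ 2))| ≤ 1 / (n : ℝ) ^ 3 := by
  set Z : ℕ → ℝ := fun n => ∑ m ∈ Icc 1 n, 1 / (m : ℝ) ^ 2 with hZ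
  have hlim0 : Tendsto Z atTop (𝓝 (Real.pi ^ 2 / 6)) := by
    have h1 := hasSum_zeta_two.tendsto_sum_nat
    have h2 := (tendsto_add_atTop_iff_nat 1).2 h1
    refine h2.congr fun n => ?_
    rw [hZ]
    simp only
    rw [Finset.range_eq_Ico, Finset.sum_eq_sum_Ico_succ_bot (by omega)]
    simp
    rfl
  set b : ℕ → ℝ := fun n => Z n + 1 / (n : ℝ) - 1 / (2 * (n : ℝ) ^ 2) with hb
  have hstep : ∀ m : ℕ, 1 ≤ m → b (m + 1) - b m = 1 / (2 * (m : ℝ) ^ 2 * ((m : ℝ) + 1) ^ 2) := by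
    intro m hm
    have hmR : (1 : ℝ) ≤ m := by exact_mod_cast hm
    have h1 : Z (m + 1) = Z m + 1 / ((m : ℝ) + 1) ^ 2 := by
      rw [hZ]
      simp only
      rw [Finset.sum_Icc_succ_top (by omega)]
      push_cast
      rfl
    rw [hb]
    simp only
    rw [h1]
    push_cast
    field_simp
    ring
  have hinv : Tendsto (fun n : ℕ => 1 / (n : ℝ)) atTop (𝓝 0) := tendsto_one_div_atTop_nhds_zero_nat
  have hlimb : Tendsto b atTop (𝓝 (Real.pi ^ 2 / 6)) := by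
    have h2 : Tendsto (fun n : ℕ => 1 / (2 * (n : ℝ) ^ 2)) atTop (𝓝 (1 / 2 * (0 * 0))) := by
      refine ((hinv.mul hinv).const_mul (1 / 2)).congr fun n => ?_
      ring
    have h3 := (hlim0.add hinv).sub h2
    have e : Real.pi ^ 2 / 6 + 0 - 1 / 2 * (0 * 0) = Real.pi ^ 2 / 6 := by ring
    rw [e] at h3
    exact h3
  have hmono : ∀ m, n ≤ m → b n ≤ b m := by
    intro m hm
    induction m, hm using Nat.le_induction with
    | base => exact le_rfl
    | succ m hm ih =>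
      have h1 := hstep m (hn.trans hm)
      have h2 : (0 : ℝ) ≤ 1 / (2 * (m : ℝ) ^ 2 * ((m : ℝ) + 1) ^ 2) := by positivity
      linarith
  have hanti : ∀ m, n ≤ m → b m + 1 / (m : ℝ) ^ 3 ≤ b n + 1 / (n : ℝ) ^ 3 := by
    intro m hm
    induction m, hm using Nat.le_induction with
    | base => exact le_rfl
    | succ m hm ih =>
      have h1 := hstep m (hn.trans hm)
      have hmR : (1 : ℝ) ≤ m := by exact_mod_cast hn.trans hm
      have h2 : 1 / (2 * (m : ℝ) ^ 2 * ((m : ℝ) + 1) ^ 2) + 1 / ((m + 1 : ℕ) : ℝ) ^ 3 ≤ 1 / (m : ℝ) ^ 3 := by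
        push_cast
        rw [div_add_div _ _ (by positivity) (by positivity), div_le_div_iff₀ (by positivity) (by positivity)]
        have h4 : 0 ≤ (m : ℝ) ^ 2 * (m + 1) ^ 2 * (5 * m ^ 2 + 5 * m + 2) := by positivity
        nlinarith [h4]
      linarith
  have h1 : b n ≤ Real.pi ^ 2 / 6 := ge_of_tendsto hlimb (eventually_atTop.2 ⟨n, hmono⟩)
  have h2 : Real.pi ^ 2 / 6 ≤ b n + 1 / (n : ℝ) ^ 3 := by
    have h3 : Tendsto (fun m : ℕ => b m + 1 / (m : ℝ) ^ 3) atTop (𝓝 (Real.pi ^ 2 / 6 + 0 * 0 * 0)) := by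
      refine (hlimb.add ((hinv.mul hinv).mul hinv)).congr fun n => ?_
      ring
    have h4 := le_of_tendsto h3 (eventually_atTop.2 ⟨n, hanti⟩)
    linarith
  have h5 : b n = Z n + 1 / (n : ℝ) - 1 / (2 * (n : ℝ) ^ 2) := rfl
  change |Z n - _| ≤ _
  rw [abs_le]
  constructor <;> linarith

/-- the pairs below the hyperbola -/
def hyp (Y : ℕ) : Finset (ℕ × ℕ) := (Icc 1 Y ×ˢ Icc 1 Y).filter (fun p => p.1 * p.2 ≤ Y)

lemma mem_hyp {Y : ℕ} {p : ℕ × ℕ} : p ∈ hyp Y ↔ 1 ≤ p.1 ∧ 1 ≤ p.2 ∧ p.1 * p.2 ≤ Y := by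
  unfold hyp
  rw [mem_filter, mem_product, mem_Icc, mem_Icc]
  constructor
  · rintro ⟨⟨⟨h1, h2⟩, h3, h4⟩, h5⟩
    exact ⟨h1, h3, h5⟩
  · rintro ⟨h1, h3, h5⟩
    refine ⟨⟨⟨h1, ?_⟩, h3, ?_⟩, h5⟩
    · nlinarith
    · nlinarith

/-- the sum over the divisors -/
lemma sum_div (Y : ℕ) (G : ℕ → ℕ → ℝ) :
    ∑ n ∈ Icc 1 Y, ∑ m ∈ n.divisors, G m (n / m) = ∑ p ∈ hyp Y, G p.1 p.2 := by
  rw [Finset.sum_sigma']
  refine Finset.sum_nbij' (fun x : (_ : ℕ) × ℕ => (x.2, x.1 / x.2)) (fun p => ⟨p.1 * p.2, p.1⟩) ?_ ?_ ?_ ?_ ?_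
  · rintro ⟨n, m⟩ h
    rw [mem_sigma, mem_Icc] at h
    obtain ⟨⟨h1, h2⟩, h3⟩ := h
    simp only at h1 h2 h3
    rw [Nat.mem_divisors] at h3
    obtain ⟨l, hl⟩ := h3.1
    have hm : 0 < m := by
      rcases Nat.eq_zero_or_pos m with h | h
      · rw [h] at hl; omega
      · exact h
    rw [mem_hyp]
    simp only
    rw [hl, Nat.mul_div_cancel_left _ hm]
    refine ⟨hm, ?_, hl ▸ h2⟩
    rcases Nat.eq_zero_or_pos l with h | h
    · rw [h] at hl; omega
    · exact h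
  · rintro ⟨m, l⟩ h
    rw [mem_hyp] at h
    simp only at h
    rw [mem_sigma, mem_Icc, Nat.mem_divisors]
    simp only
    have : 0 < m * l := Nat.mul_pos h.1 h.2.1
    exact ⟨⟨this, h.2.2⟩, Dvd.intro l rfl, by omega⟩
  · rintro ⟨n, m⟩ h
    rw [mem_sigma, mem_Icc] at h
    simp only at h
    have h3 := (Nat.mem_divisors.1 h.2).1
    simp only
    rw [Nat.mul_div_cancel' h3]
  · rintro ⟨m, l⟩ h
    rw [mem_hyp] at h
    simp only at h
    simp only
    rw [Nat.mul_div_cancel_left _ h.1]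
  · rintro ⟨n, m⟩ h
    rfl

/-- the inner sums of the first part -/
lemma partA (Y m : ℕ) (hm : 1 ≤ m) :
    |∑ l ∈ Icc 1 (Y / m), ((Y : ℝ) / m - l) - (((Y : ℝ) / m) ^ 2 / 2 - ((Y : ℝ) / m) / 2)| ≤ 1 := by
  have hmR : (1 : ℝ) ≤ m := by exact_mod_cast hm
  set x : ℝ := (Y : ℝ) / m with hx
  set L : ℕ := Y / m with hL
  have hg : ∀ n : ℕ, ∑ l ∈ Icc 1 n, (l : ℝ) = n * (n + 1) / 2 := by
    intro n
    induction n with
    | zero => simp
    | succ n ih =>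
      rw [Finset.sum_Icc_succ_top (by omega), ih]
      push_cast
      ring
  have h1 : ∑ l ∈ Icc 1 L, (x - l) = L * x - L * (L + 1) / 2 := by
    rw [Finset.sum_sub_distrib, hg, sum_const, Nat.card_Icc]
    simp
  rw [h1]
  have h2 : (L : ℝ) ≤ x := Nat.cast_div_le
  have h3 : x < L + 1 := by
    rw [hx, div_lt_iff₀ (by linarith)]
    have := Nat.lt_div_mul_add (a := Y) (b := m) (by omega)
    have h4 : Y < (L + 1) * m := by rw [hL]; nlinarith
    exact_mod_cast h4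
  have e : (L : ℝ) * x - L * (L + 1) / 2 - (x ^ 2 / 2 - x / 2) = ((x - L) - (x - L) ^ 2) / 2 := by ring
  rw [e, abs_le]
  constructor <;> nlinarith

/-- the inner sums of the second part -/
lemma partB (C : ℝ) (hC : 0 < C) (H : ℕ → ℝ)
    (hH : ∀ n : ℕ, 1 ≤ n → |H n - (Real.log n + Real.eulerMascheroniConstant + 1 / (2 * n))| ≤ C / (n : ℝ) ^ 2)
    (N l : ℕ) (hl : 1 ≤ l) (hlN : l ≤ N) :
    |((N : ℝ) ^ 2 * H (N ^ 2 / l) - l * ((N ^ 2 / l : ℕ) : ℝ)) -
      ((N : ℝ) ^ 2 * (2 * Real.log N - Real.log l + Real.eulerMascheroniConstant) + l / 2 - (N : ℝ) ^ 2)| ≤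
      4 * C + 4 := by
  have hlR : (1 : ℝ) ≤ l := by exact_mod_cast hl
  have hlNR : (l : ℝ) ≤ N := by exact_mod_cast hlN
  have hN1 : (1 : ℝ) ≤ N := hlR.trans hlNR
  set x : ℝ := (N : ℝ) ^ 2 / l with hx
  set M : ℕ := N ^ 2 / l with hM
  have hxl : x * l = (N : ℝ) ^ 2 := by rw [hx]; field_simp
  have hx1 : (1 : ℝ) ≤ x := by rw [hx, one_le_div (by linarith)]; nlinarith
  have h2 : (M : ℝ) ≤ x := by
    have := Nat.cast_div_le (α := ℝ) (m := N ^ 2) (n := l)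
    push_cast at this
    exact this
  have h3 : x < M + 1 := by
    rw [hx, div_lt_iff₀ (by linarith)]
    have := Nat.lt_div_mul_add (a := N ^ 2) (b := l) (by omega)
    have h4 : N ^ 2 < (M + 1) * l := by rw [hM]; nlinarith
    exact_mod_cast h4
  have hM1 : 1 ≤ M := by
    rw [hM, Nat.le_div_iff_mul_le (by omega)]
    nlinarith
  have hM1R : (1 : ℝ) ≤ M := by exact_mod_cast hM1
  have hMx : x / 2 ≤ M := by linarith
  have hx0 : 0 < x := by linarith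
  have hM0 : (0 : ℝ) < M := by linarith
  -- the logarithm
  have hlog : Real.log x = 2 * Real.log N - Real.log l := by
    rw [hx, Real.log_div (by positivity) (by linarith), Real.log_pow]
    push_cast
    rfl
  have hsplit : Real.log M = Real.log x + Real.log (M / x) := by
    rw [Real.log_div hM0.ne' hx0.ne']; ring
  have hl1 : Real.log ((M : ℝ) / x) ≤ M / x - 1 := Real.log_le_sub_one_of_pos (by positivity)
  have hl2 : 1 - ((M : ℝ) / x)⁻¹ ≤ Real.log ((M : ℝ) / x) := Real.one_sub_inv_le_log_of_pos (by positivity)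
  rw [inv_div] at hl2
  -- bounds multiplied by `x ^ 2`
  have hH1 := hH M hM1
  have hCM : C / (M : ℝ) ^ 2 * x ^ 2 ≤ 4 * C := by
    rw [div_mul_eq_mul_div, div_le_iff₀ (by positivity)]
    have h5 : x ^ 2 ≤ 4 * (M : ℝ) ^ 2 := by nlinarith
    nlinarith
  have hxM : x / M ≤ 2 := by rw [div_le_iff₀ hM0]; linarith
  have hxM1 : 1 ≤ x / M := by rw [one_le_div hM0]; exact h2
  set θ : ℝ := x - M with hθ
  have hθ0 : 0 ≤ θ := by linarith
  have hθ1 : θ ≤ 1 := by linarith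
  -- `x^2 (log (M/x) + θ/x) ∈ [-2, 0]`
  have hA1 : x ^ 2 * (Real.log ((M : ℝ) / x) + θ / x) ≤ 0 := by
    have h5 : Real.log ((M : ℝ) / x) + θ / x ≤ 0 := by
      have : (M : ℝ) / x - 1 + θ / x = 0 := by rw [hθ]; field_simp; ring
      linarith
    nlinarith [sq_nonneg x]
  have hA2 : -2 ≤ x ^ 2 * (Real.log ((M : ℝ) / x) + θ / x) := by
    have h5 : -(θ ^ 2 / (M * x)) ≤ Real.log ((M : ℝ) / x) + θ / x := by
      have : 1 - x / M + θ / x = -(θ ^ 2 / (M * x)) := by rw [hθ]; field_simp; ring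
      linarith
    have h6 : x ^ 2 * (θ ^ 2 / (M * x)) ≤ 2 := by
      have h7 : x ^ 2 * (θ ^ 2 / (M * x)) = θ ^ 2 * (x / M) := by field_simp
      rw [h7]
      have h8 : θ ^ 2 ≤ 1 := by nlinarith
      nlinarith
    nlinarith [sq_nonneg x]
  have hB1 : 0 ≤ x ^ 2 * (1 / (2 * M) - 1 / (2 * x)) := by
    have h7 : x ^ 2 * (1 / (2 * M) - 1 / (2 * x)) = θ * (x / M) / 2 := by rw [hθ]; field_simp
    rw [h7]; positivity
  have hB2 : x ^ 2 * (1 / (2 * M) - 1 / (2 * x)) ≤ 1 := by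
    have h7 : x ^ 2 * (1 / (2 * M) - 1 / (2 * x)) = θ * (x / M) / 2 := by rw [hθ]; field_simp
    rw [h7]; nlinarith
  have hC1 : |x ^ 2 * (H M - (Real.log M + Real.eulerMascheroniConstant + 1 / (2 * M)))| ≤ 4 * C := by
    rw [abs_mul, abs_of_nonneg (sq_nonneg x), mul_comm]
    exact (mul_le_mul_of_nonneg_right hH1 (sq_nonneg x)).trans hCM
  have hD : |x ^ 2 * (H M - (Real.log x + Real.eulerMascheroniConstant + (1 / 2 - θ) / x))| ≤ 4 * C + 3 := by
    have e : x ^ 2 * (H M - (Real.log x + Real.eulerMascheroniConstant + (1 / 2 - θ) / x)) =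
        x ^ 2 * (H M - (Real.log M + Real.eulerMascheroniConstant + 1 / (2 * M))) +
        x ^ 2 * (Real.log ((M : ℝ) / x) + θ / x) + x ^ 2 * (1 / (2 * M) - 1 / (2 * x)) := by
      rw [hsplit]
      have e2 : (1 / 2 - θ) / x = 1 / (2 * x) - θ / x := by field_simp
      rw [e2]; ring
    rw [e]
    rw [abs_le] at hC1 ⊢
    constructor <;> linarith [hC1.1, hC1.2]
  -- the final form
  have e : ((N : ℝ) ^ 2 * H M - l * (M : ℝ)) -
      ((N : ℝ) ^ 2 * (2 * Real.log N - Real.log l + Real.eulerMascheroniConstant) + l / 2 - (N : ℝ) ^ 2) =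
      (l / x) * (x ^ 2 * (H M - (Real.log x + Real.eulerMascheroniConstant + (1 / 2 - θ) / x))) := by
    rw [← hlog, ← hxl]
    have hMe : (M : ℝ) = x - θ := by rw [hθ]; ring
    have e1 : (l / x) * (x ^ 2 * (H M - (Real.log x + Real.eulerMascheroniConstant + (1 / 2 - θ) / x))) =
        x * l * (H M - (Real.log x + Real.eulerMascheroniConstant)) - l * (1 / 2 - θ) := by
      field_simp
      ring
    rw [e1, hMe]
    have : ((x - θ : ℝ)) = x - θ := rfl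
    ring
  rw [e, abs_mul]
  have hlx : |(l : ℝ) / x| ≤ 1 := by
    rw [abs_of_nonneg (by positivity), div_le_one hx0, hx, le_div_iff₀ (by linarith)]
    nlinarith
  calc |(l : ℝ) / x| * |x ^ 2 * (H M - (Real.log x + Real.eulerMascheroniConstant + (1 / 2 - θ) / x))|
      ≤ 1 * (4 * C + 3) := mul_le_mul hlx hD (abs_nonneg _) zero_le_one
    _ ≤ 4 * C + 4 := by linarith

end Pool.Agent.P8H52.FG
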